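import Pool.Agent.H23.GZ.Targets5

/-!
Row APB of the board gz: the a priori bound for the parameters of bounded forms.
-/

namespace Pool.Agent.H18.GZ

open MeasureTheory Pool.Agent.H34.GM Pool.Agent.H34.GZ Filter Topology

theorem pf_APB : T_AP1 → T_AP2 → T_GAU → T_APB := by
  intro h1 h2 h3 m q _ T F lam mu hm hE hF
  have hA := h1 m q T F lam mu hm hE hF
  have : Nonempty (Fin m) := ⟨⟨0, hm⟩⟩
  obtain ⟨j0, hj0⟩ := Finite.exists_max (fun j => (mu j).re)
  by_contra hcon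
  push Not at hcon
  obtain ⟨j1, hj1⟩ := hcon
  have hσ : ((m : ℝ) - 1) / 2 < (mu j0).re := hj1.trans_le (hj0 j1)
  obtain ⟨σ0, h01, h02, h03⟩ : ∃ σ0 : ℝ, ((m : ℝ) - 1) / 2 < σ0 ∧ σ0 < (mu j0).re ∧
      (mu j0).re ≤ σ0 + 1 / 2 := by
    refine ⟨max ((((m : ℝ) - 1) / 2 + (mu j0).re) / 2) ((mu j0).re - 1 / 2), ?_, ?_, ?_⟩
    · exact lt_max_of_lt_left (by linarith)
    · exact max_lt (by linarith) (by linarith)
    · have := le_max_right ((((m : ℝ) - 1) / 2 + (mu j0).re) / 2) ((mu j0).re - 1 / 2)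
      linarith
  obtain ⟨C, hC⟩ := h2 m hm mu hA σ0 h01
  obtain ⟨c, hc, hG⟩ := h3 m hm
  have hpi : (Real.pi : ℂ) ≠ 0 := by exact_mod_cast Real.pi_ne_zero
  obtain ⟨P, hP⟩ : ∃ P : ℝ → ℂ, P = fun h : ℝ => ∏ j, ((Real.pi : ℂ) ^
      ((mu j0 + h - mu j) / 2) * (Complex.Gamma ((mu j0 + h - mu j) / 2))⁻¹) := ⟨_, rfl⟩
  have hcont : Continuous P := by
    rw [hP]
    refine continuous_finsetProd _ fun j _ => ?_
    have hl : Continuous fun h : ℝ => (mu j0 + h - mu j) / 2 := by fun_prop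
    refine Continuous.mul ?_ ?_
    · exact hl.const_cpow (Or.inl hpi)
    · exact Complex.differentiable_one_div_Gamma.continuous.comp hl
  have hP0 : P 0 = 0 := by
    rw [hP]
    refine Finset.prod_eq_zero (Finset.mem_univ j0) ?_
    simp
  have key : ∀ h : ℝ, 0 < h → h ≤ 1 / 2 → ‖c‖ ≤ C * ‖P h‖ := by
    intro h hh hh2
    have hs : (mu j0 + (h : ℂ)).re = (mu j0).re + h := by simp
    have hre : ∀ j, (mu j).re < (mu j0 + (h : ℂ)).re := by
      intro j
      rw [hs]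
      have := hj0 j
      linarith
    have hb := hC (mu j0 + h) (by rw [hs]; linarith) (by rw [hs]; linarith) hre
    rw [hG mu (mu j0 + h) hre] at hb
    have e : (∏ j, ((Real.pi : ℂ) ^ (-(mu j0 + h - mu j) / 2) *
        Complex.Gamma ((mu j0 + h - mu j) / 2))) * P h = 1 := by
      rw [hP]
      simp only
      rw [← Finset.prod_mul_distrib]
      refine Finset.prod_eq_one fun j _ => ?_
      have hg : Complex.Gamma ((mu j0 + h - mu j) / 2) ≠ 0 := by
        refine Complex.Gamma_ne_zero_of_re_pos ?_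
        have := hre j
        rw [Complex.div_ofNat_re, Complex.sub_re]
        linarith
      have e2 : (Real.pi : ℂ) ^ (-(mu j0 + h - mu j) / 2) *
          (Real.pi : ℂ) ^ ((mu j0 + h - mu j) / 2) = 1 := by
        rw [← Complex.cpow_add _ _ hpi]
        rw [show -(mu j0 + h - mu j) / 2 + (mu j0 + h - mu j) / 2 = (0 : ℂ) by ring]
        exact Complex.cpow_zero _
      calc (Real.pi : ℂ) ^ (-(mu j0 + h - mu j) / 2) *
            Complex.Gamma ((mu j0 + h - mu j) / 2) * ((Real.pi : ℂ) ^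
            ((mu j0 + h - mu j) / 2) * (Complex.Gamma ((mu j0 + h - mu j) / 2))⁻¹)
          = ((Real.pi : ℂ) ^ (-(mu j0 + h - mu j) / 2) *
            (Real.pi : ℂ) ^ ((mu j0 + h - mu j) / 2)) *
            (Complex.Gamma ((mu j0 + h - mu j) / 2) *
            (Complex.Gamma ((mu j0 + h - mu j) / 2))⁻¹) := by ring
        _ = 1 := by rw [e2, mul_inv_cancel₀ hg, one_mul]
    calc ‖c‖ = ‖c * (∏ j, ((Real.pi : ℂ) ^ (-(mu j0 + h - mu j) / 2) *
        Complex.Gamma ((mu j0 + h - mu j) / 2))) * P h‖ := by rw [mul_assoc, e, mul_one]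
      _ = ‖c * (∏ j, ((Real.pi : ℂ) ^ (-(mu j0 + h - mu j) / 2) *
        Complex.Gamma ((mu j0 + h - mu j) / 2)))‖ * ‖P h‖ := norm_mul _ _
      _ ≤ C * ‖P h‖ := mul_le_mul_of_nonneg_right hb (norm_nonneg _)
  have hlim : Tendsto (fun h : ℝ => C * ‖P h‖) (𝓝[>] 0) (𝓝 (C * ‖P 0‖)) :=
    ((continuous_const.mul hcont.norm).tendsto 0).mono_left nhdsWithin_le_nhds
  have hfin : ‖c‖ ≤ C * ‖P 0‖ := by
    refine ge_of_tendsto hlim ?_
    filter_upwards [Ioo_mem_nhdsGT (show (0 : ℝ) < 1 / 2 by norm_num)] with h hh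
    exact key h hh.1 hh.2.le
  rw [hP0, norm_zero, mul_zero] at hfin
  exact absurd (norm_pos_iff.2 hc) (not_lt.2 hfin)

end Pool.Agent.H18.GZ
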