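import Pool.Agent.H34.GZ.Defs

/-!
Kernels and local transforms with bounds, for section 6 of the page H34_GZ.md.
-/

namespace Pool.Agent.H34.GZ

open MeasureTheory Pool.Agent.H34.GM

/-- the data -/
structure DatZ (m q : ℕ) [NeZero q] (T : ℕ → Finset (ZM m)) (D : Set (V m)) : Prop where
  one_le : 1 ≤ m
  two_le : 2 ≤ q
  reps : RepsZ m T
  dom : DomZ m D

/-- continuous bi-invariant rapidly decreasing kernels -/
structure KrZ (m : ℕ) (Ψ : Mat m → ℂ) : Prop where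
  cont : Continuous Ψ
  left : ∀ u : Mat m, u * u.transpose = 1 → ∀ z, Ψ (u * z) = Ψ z
  right : ∀ u : Mat m, u * u.transpose = 1 → ∀ z, Ψ (z * u) = Ψ z
  rap : ∀ N : ℕ, ∃ M : ℝ, ∀ z, ‖Ψ z‖ ≤ M * (1 + sz z) ^ (-(N : ℝ))

/-- smooth test functions -/
structure SmT (m : ℕ) (Φ : Mat m → ℂ) : Prop where
  tst : Tst m Φ
  smooth : ContDiff ℝ ((⊤ : ℕ∞) : WithTop ℕ∞) (fun z : V m => Φ (mt z))
  comp : HasCompactSupport (fun z : V m => Φ (mt z))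

/-- the conjugate of the Fourier transform -/
noncomputable def cft {m : ℕ} (Φ : Mat m → ℂ) (z : Mat m) : ℂ := (starRingEnd ℂ) (ft Φ z)

/-- bounds for the local transform and its derivative -/
structure ThB (m : ℕ) (Ψ : Mat m → ℂ) (mu : Fin m → ℂ) (M K ε : ℝ) : Prop where
  diff : ∀ r : ℝ, 0 < r → DifferentiableAt ℝ (th1 Ψ mu) r
  bd : ∀ r : ℝ, 0 < r → ‖th1 Ψ mu r‖ ≤ M * min (r ^ K) (r ^ ((m : ℝ) ^ 2 / 2 + ε))
  bd' : ∀ r : ℝ, 0 < r → r * ‖deriv (th1 Ψ mu) r‖ ≤ M * min (r ^ K) (r ^ ((m : ℝ) ^ 2 / 2 + ε))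

/-- the square of the norm of a form -/
noncomputable def nF {m q : ℕ} [NeZero q] (D : Set (V m)) (F : Mat m → RM m q → ℂ) : ℝ :=
  ∑ x, ∫ z in D, ‖F (mt z) x‖ ^ 2 ∂(hm m)

/-- the weight -/
noncomputable def wJ (m q : ℕ) (J y : ℝ) : ℝ := min 1 (((q : ℝ) ^ ((m : ℝ) / 2) / y) ^ J)

end Pool.Agent.H34.GZ
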