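import Pool.Agent.H34.GZ.Targets2

/-!
Targets of the board gz, section 6 of the page H34_GZ.md: adjointness, approximate functional
equation.
-/

namespace Pool.Agent.H34.GZ

open MeasureTheory Pool.Agent.H34.GM

/-- the square of the norm of a form -/
noncomputable def nF {m q : ℕ} [NeZero q] (D : Set (V m)) (F : Mat m → RM m q → ℂ) : ℝ :=
  ∑ x, ∫ z in D, ‖F (mt z) x‖ ^ 2 ∂(hm m)

/-- the weight -/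
noncomputable def wJ (m q : ℕ) (J y : ℝ) : ℝ := min 1 (((q : ℝ) ^ ((m : ℝ) / 2) / y) ^ J)

/-! ### integrals over the shell -/

/-- invariance of the integrals of scale invariant functions over the shell -/
def T_SHI : Prop := ∀ m : ℕ, 1 ≤ m → ∀ f : V m → ENNReal, Measurable f →
  (∀ c : ℝ, 0 < c → ∀ z : V m, f (c • z) = f z) → ∀ a b : Mat m, a.det ≠ 0 → b.det ≠ 0 →
  ∫⁻ z in Shell m, f (fun i j => (a * mt z * b) i j) ∂(hm m) = ∫⁻ z in Shell m, f z ∂(hm m) ∧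
  ∫⁻ z in Shell m, f (fun i j => (a * (mt z)⁻¹ * b) i j) ∂(hm m) =
    ∫⁻ z in Shell m, f z ∂(hm m)

/-- the volume of the large elements of the shell -/
def T_JSH : Prop := ∀ m : ℕ, 1 ≤ m → ∀ K : ℝ, (m : ℝ) ^ 2 ≤ K → ∃ (N : ℕ) (C : ℝ), 0 < C ∧
  ∀ t : ℝ, 0 < t → ∫⁻ z in Shell m, ENNReal.ofReal
    ((1 + sz ((t⁻¹ * (aN (mt z))⁻¹) • mt z)) ^ (-(N : ℝ))) ∂(hm m) ≤ ENNReal.ofReal (C * t ^ K)

open Classical in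
/-- lattice sums integrated over the domain, uniformly in the other variable -/
def T_TNL : Prop := ∀ m : ℕ, 1 ≤ m → ∀ K0 : ℝ, ∃ (K : ℝ) (N : ℕ) (C : ℝ), K0 ≤ K ∧ 0 < C ∧
  ∀ D : Set (V m), DomZ m D → ∀ r : ℝ, 0 < r → ∀ g : Mat m, g.det ≠ 0 →
  ∫⁻ z in D, ∑' α : ZM m, (if α.det = 0 then 0 else ENNReal.ofReal
    ((1 + sz (kk r (mt z) (cR α) g)) ^ (-(N : ℝ)))) ∂(hm m) ≤ ENNReal.ofReal (C * r ^ K)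

/-! ### kernels -/

/-- cut-off functions -/
def T_CUT : Prop := ∀ m : ℕ, 1 ≤ m → ∃ c : ℕ → Mat m → ℝ, (∀ j z, 0 ≤ c j z ∧ c j z ≤ 1) ∧
  (∀ z : Mat m, z.det ≠ 0 → Filter.Tendsto (fun j => c j z) Filter.atTop (nhds 1)) ∧
  ∀ Ψ : Mat m → ℂ, Dec m Ψ → ∀ j, Tst m (fun z => (c j z : ℂ) * Ψ z)

/-- forms are eigenfunctions of `A_r`, rapidly decreasing kernels -/
def T_EGD : Prop := ∀ (m q : ℕ) [NeZero q] (T : ℕ → Finset (ZM m)) (D : Set (V m)),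
  SysZ m q T D → ∀ (F : Mat m → RM m q → ℂ) (lam : ℕ → ℂ) (mu : Fin m → ℂ),
  EigZ m q T F lam mu → ∀ Ψ : Mat m → ℂ, Dec m Ψ →
  ∀ (g : Mat m) (r : ℝ) (x : RM m q), g.det ≠ 0 → 0 < r →
    opAz q Ψ r D F g x = thF q Ψ mu lam r * F g x

/-! ### adjointness -/

/-- the adjoint of the Gauss sum operator -/
def T_VCT : Prop := ∀ (m q : ℕ) [NeZero q], 1 ≤ m → 2 ≤ q →
  (∀ f : RM m q → ℂ, ∑ x, ‖opVz q f x‖ ^ 2 ≤ ∑ x, ‖f x‖ ^ 2) ∧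
  (∀ (f : RM m q → ℂ) (v x : RM m q), IsUnit v →
    opVz q (fun y => f (v * y)) x = opVz q f (v * x)) ∧
  (∀ (f : RM m q → ℂ) (x : RM m q), ¬ IsUnit x → opVz q f x = 0) ∧
  ∀ f h : RM m q → ℂ, (∀ x, ¬ IsUnit x → f x = 0) →
    ∑ x, opWz q f x * (starRingEnd ℂ) (h x) = ∑ y, f y * (starRingEnd ℂ) (opVz q h y)

/-- the adjoint of the Gauss sum operator maps forms to forms -/
def T_VEZ : Prop := ∀ (m q : ℕ) [NeZero q] (T : ℕ → Finset (ZM m)), 1 ≤ m → 2 ≤ q →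
  RepsZ m T → ∀ (F : Mat m → RM m q → ℂ) (lam : ℕ → ℂ) (mu : Fin m → ℂ),
  EigZ m q T F lam mu → EigZ m q T (fun g => opVz q (F g)) lam mu

open Classical in
/-- the pointwise identity -/
def T_ADP : Prop := ∀ (m q : ℕ) [NeZero q], 1 ≤ m → 2 ≤ q → ∀ Φ : Mat m → ℂ, TstS m Φ →
  ∀ f f' : RM m q → ℂ, (∀ x, ¬ IsUnit x → f x = 0) →
  (∀ a : RM m q, ¬ IsUnit a → ∑ y, psq q (a * y) * f y = 0) →
  ∀ (g h : Mat m) (r : ℝ), g.det ≠ 0 → h.det ≠ 0 → 0 < r →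
  ∑ x, (∑' α : ZM m, Φ (kk ((q : ℝ) / r) h (cR α) g) * f (cQ q α * x)) *
      (starRingEnd ℂ) (f' x) =
    ((((q : ℝ) / r) ^ (m ^ 2) * (q : ℝ) ^ (-((m : ℝ) ^ 2) / 2) : ℝ) : ℂ) *
      ∑ x, (∑' β : ZM m, if IsUnit (cQ q β) then
        ft Φ (kk r g (cR β) h) * f (Ring.inverse (cQ q β) * x) else 0) *
          (starRingEnd ℂ) (opVz q f' x)

open Classical in
/-- the operators are adjoint -/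
def T_ADF : Prop := ∀ (m q : ℕ) [NeZero q], 1 ≤ m → 2 ≤ q → ∀ D : Set (V m), DomZ m D →
  hm m D < ⊤ → ∀ Ψ : Mat m → ℂ, Dec m Ψ → ∀ (u v : Mat m → RM m q → ℂ) (B : ℝ),
  (∀ g x, g.det ≠ 0 → ‖u g x‖ ≤ B ∧ ‖v g x‖ ≤ B) →
  (∀ x, ContinuousOn (fun g => u g x) {g | g.det ≠ 0} ∧
    ContinuousOn (fun g => v g x) {g | g.det ≠ 0}) →
  (∀ g x, ¬ IsUnit x → u g x = 0 ∧ v g x = 0) → ∀ r : ℝ, 0 < r →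
  (∀ (g : Mat m) (x : RM m q), g.det ≠ 0 →
    IntegrableOn (fun z : V m => ∑' α : ZM m, Ψ (kk r (mt z) (cR α) g) *
      u (mt z) (cQ q α * x)) D (hm m)) ∧
  ∫ z in D, ∫ w in D, ∑ x, (∑' β : ZM m, if IsUnit (cQ q β) then
      Ψ (kk r (mt z) (cR β) (mt w)) * u (mt w) (Ring.inverse (cQ q β) * x) else 0) *
        (starRingEnd ℂ) (v (mt z) x) ∂(hm m) ∂(hm m) =
    ∫ w in D, ∑ y, u (mt w) y * (starRingEnd ℂ)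
      (opAz q (fun a => (starRingEnd ℂ) (Ψ a)) r D v (mt w) y) ∂(hm m)

/-- the dual eigenvalue is bounded by an eigenvalue -/
def T_ADJ : Prop := ∀ (m q : ℕ) [NeZero q] (T : ℕ → Finset (ZM m)) (D : Set (V m)),
  SysZ m q T D → ∀ (F : Mat m → RM m q → ℂ) (lam : ℕ → ℂ) (mu : Fin m → ℂ),
  CuspZ m q T F lam mu → nF D F ≠ 0 → ∀ Φ : Mat m → ℂ, TstS m Φ → ∀ r : ℝ, 0 < r →
    ‖thDz q Φ mu lam r‖ ≤ ‖thF q (fun w => (starRingEnd ℂ) (ft Φ w)) mu lam r‖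

/-- size of the eigenvalues for one form -/
def T_SMZ : Prop := ∀ (m q : ℕ) [NeZero q] (T : ℕ → Finset (ZM m)) (D : Set (V m)),
  SysZ m q T D → ∀ (F : Mat m → RM m q → ℂ) (lam : ℕ → ℂ) (mu : Fin m → ℂ),
  CuspZ m q T F lam mu → nF D F ≠ 0 → ∀ Φ : Mat m → ℂ, TstS m Φ → ∀ N : ℕ, ∃ C : ℝ,
    (∀ r : ℝ, 0 < r → r ≤ 1 → ‖thDz q Φ mu lam r‖ ≤ C * r ^ N) ∧
    (∀ r : ℝ, 1 ≤ r → ‖thF q Φ mu lam r‖ ≤ C * r ^ (-(N : ℝ)))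

/-! ### sums over the eigenvalues -/

/-- summation by parts -/
def T_ABS : Prop := ∀ (m q K : ℕ) (Ψ : Mat m → ℂ) (mu : Fin m → ℂ) (lam : ℕ → ℂ)
  (M ε C1 : ℝ), 1 ≤ m → m * (m + 2) < K → ThB Ψ mu M ε K →
  (∀ n : ℕ, 1 ≤ n → n.Coprime q →
    ‖(n : ℂ) ^ (((m : ℂ) - 1) / 2) * lam n‖ ≤ C1 * (n : ℝ) ^ m) → ∀ r : ℝ, 0 < r →
  ENNReal.ofReal ‖thF q Ψ mu lam r‖ ≤ ∫⁻ y in Set.Ioi (1 : ℝ), ENNReal.ofReal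
    (‖SF m q lam y‖ * ((m : ℝ)⁻¹ * y⁻¹ * (M * min ((r * y ^ (-(1 / (m : ℝ)))) ^ K)
      ((r * y ^ (-(1 / (m : ℝ)))) ^ ((m : ℝ) ^ 2 / 2 + ε)))))

/-- the half of the Mellin integral in terms of the partial sums -/
def T_ABL : Prop := ∀ m : ℕ, 1 ≤ m → ∀ ε J : ℝ, 0 < ε → 0 ≤ J → ∃ (K : ℕ) (C : ℝ),
  (m : ℝ) ^ 2 / 2 + ε ≤ K ∧ 0 < C ∧
  ∀ (q : ℕ) (Ψ : Mat m → ℂ) (mu : Fin m → ℂ) (lam : ℕ → ℂ) (M C1 : ℝ), 1 ≤ q →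
  ThB Ψ mu M ε K → (∀ n : ℕ, 1 ≤ n → n.Coprime q →
    ‖(n : ℂ) ^ (((m : ℂ) - 1) / 2) * lam n‖ ≤ C1 * (n : ℝ) ^ m) →
  ∫⁻ r in Set.Ioc (0 : ℝ) (Real.sqrt q), ENNReal.ofReal
      (‖thF q Ψ mu lam r‖ * r ^ (-((m : ℝ) ^ 2 / 2) - 1)) ≤
    ENNReal.ofReal (C * M * (q : ℝ) ^ (ε / 2)) * ∫⁻ y in Set.Ioi (1 : ℝ), ENNReal.ofReal
      (‖SF m q lam y‖ * y ^ (-((m : ℝ) / 2) - 1) * wJ m q J y)

/-- dyadic decomposition -/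
def T_DYS : Prop := ∀ m : ℕ, 1 ≤ m → ∃ C : ℝ, 0 < C ∧ ∀ (q : ℕ) (J : ℝ) (lam : ℕ → ℂ),
  1 ≤ q → 0 ≤ J →
  ∫⁻ y in Set.Ioi (1 : ℝ), ENNReal.ofReal
      (‖SF m q lam y‖ * y ^ (-((m : ℝ) / 2) - 1) * wJ m q J y) ≤
    ENNReal.ofReal C * ∫⁻ y in Set.Ioi (1 : ℝ), ENNReal.ofReal
      (‖DF m q lam y‖ * y ^ (-((m : ℝ) / 2) - 1) * wJ m q J y)

/-- Hölder -/
def T_HLD : Prop := ∀ m : ℕ, 1 ≤ m → ∀ (ε : ℝ) (K0 : ℕ), 0 < ε → ∃ C : ℝ, 0 < C ∧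
  ∀ (q : ℕ) (ι : Type) [Fintype ι] (lam : ι → ℕ → ℂ) (B : ℝ), 1 ≤ q → 0 ≤ B →
  (∀ y : ℝ, 1 ≤ y → ∑ i, ‖DF m q (lam i) y‖ ^ 4 ≤
    B * (1 + Real.log y) ^ K0 * y ^ (2 * m) * (1 + y ^ 2 / (q : ℝ) ^ m) ^ m) →
  ∑ i, (∫⁻ y in Set.Ioi (1 : ℝ), ENNReal.ofReal
    (‖DF m q (lam i) y‖ * y ^ (-((m : ℝ) / 2) - 1) * wJ m q (m + 1) y)) ^ 4 ≤
      ENNReal.ofReal (C * B * (q : ℝ) ^ ε)

/-- one value on the critical line -/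
def T_SPF : Prop := ∀ m : ℕ, 1 ≤ m → ∀ ε J : ℝ, 0 < ε → 0 ≤ J → ∃ (K : ℕ) (C : ℝ),
  (m : ℝ) ^ 2 / 2 + ε ≤ K ∧ 0 < C ∧
  ∀ (q : ℕ) [NeZero q] (T : ℕ → Finset (ZM m)) (D : Set (V m)), SysZ m q T D →
  ∀ (F : Mat m → RM m q → ℂ) (lam : ℕ → ℂ) (mu : Fin m → ℂ), CuspZ m q T F lam mu →
  nF D F ≠ 0 → ∀ (Φ : Mat m → ℂ) (M : ℝ), TstS m Φ → ThB Φ mu M ε K →
  ThB (fun w => (starRingEnd ℂ) (ft Φ w)) mu M ε K → ∀ t : ℝ,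
  ENNReal.ofReal ‖Lm q Φ mu lam (1 / 2 + t * Complex.I)‖ ≤
    ENNReal.ofReal (C * M * (q : ℝ) ^ ε) * ∫⁻ y in Set.Ioi (1 : ℝ), ENNReal.ofReal
      (‖DF m q lam y‖ * y ^ (-((m : ℝ) / 2) - 1) * wJ m q J y)

end Pool.Agent.H34.GZ
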